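import Pool.Agent.Helper64.BKS.Stmts

/-!
# KUC: Kummer theory, elements give characters   [helper98]
-/

set_option autoImplicit false

open NumberField
open scoped Classical

namespace BKS

open BKA (Gal Zb Pl q Over Congr)

theorem st_KUC : ST_KUC := by
  intro F _ _ H ℓ hℓ ζ hζ hH b hb hbℓ
  have : NeZero ℓ := ⟨hℓ.ne_zero⟩
  have key : ∀ σ : H, ∃ i : ℕ, (σ : Gal F) b = ζ ^ i * b := by
    intro σ
    have h1 : ((σ : Gal F) b / b) ^ ℓ = 1 := by
      rw [div_pow, ← map_pow, hbℓ σ σ.2, div_self (pow_ne_zero _ hb)]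
    obtain ⟨i, -, h⟩ := hζ.eq_pow_of_pow_eq_one h1
    exact ⟨i, by rw [h, div_mul_cancel₀ _ hb]⟩
  choose i hi using key
  have uniq : ∀ a c : ℕ, ζ ^ a * b = ζ ^ c * b → (a : ZMod ℓ) = (c : ZMod ℓ) := by
    intro a c h
    have h2 : ζ ^ a = ζ ^ c := mul_right_cancel₀ hb h
    have h4 : ∀ n : ℕ, ζ ^ (n % ℓ) = ζ ^ n := by
      intro n
      have h5 := pow_mod_orderOf ζ n
      rwa [← hζ.eq_orderOf] at h5
    rw [ZMod.natCast_eq_natCast_iff]
    exact hζ.pow_inj (Nat.mod_lt _ hℓ.pos) (Nat.mod_lt _ hℓ.pos) (by rw [h4, h4, h2])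
  have hmul : ∀ σ τ : H, ((i (σ * τ) : ℕ) : ZMod ℓ) = (i σ : ZMod ℓ) + (i τ : ZMod ℓ) := by
    intro σ τ
    rw [← Nat.cast_add]
    apply uniq
    have h1 : ((σ * τ : H) : Gal F) b = (σ : Gal F) ((τ : Gal F) b) := rfl
    rw [← hi, h1, hi τ, map_mul, map_pow, hH σ σ.2, hi σ, pow_add]
    ring
  have hone : ((i (1 : H) : ℕ) : ZMod ℓ) = 0 := by
    have h1 := hmul 1 1
    rw [mul_one] at h1
    exact left_eq_add.1 h1
  let ϕ : H →* Multiplicative (ZMod ℓ) :=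
    { toFun := fun σ => Multiplicative.ofAdd (i σ : ZMod ℓ)
      map_one' := by
        rw [hone]
        rfl
      map_mul' := fun σ τ => by
        rw [hmul]
        rfl }
  have hval : ∀ σ : H, (σ : Gal F) b = ζ ^ (Multiplicative.toAdd (ϕ σ)).val * b := by
    intro σ
    rw [hi σ]
    have h5 := pow_mod_orderOf ζ (i σ)
    rw [← hζ.eq_orderOf] at h5
    have h6 : (Multiplicative.toAdd (ϕ σ)).val = i σ % ℓ := ZMod.val_natCast ℓ (i σ)
    rw [h6, h5]
  refine ⟨ϕ, ?_, fun σ h => hval ⟨σ, h⟩⟩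
  have : FiniteDimensional F (IntermediateField.adjoin F {b}) :=
    IntermediateField.adjoin.finiteDimensional (Algebra.IsIntegral.isIntegral b)
  refine ⟨(IntermediateField.adjoin F {b}).fixingSubgroup,
    IntermediateField.fixingSubgroup_isOpen _, ?_⟩
  intro σ h hM
  have h1 : σ b = b := by
    have h2 := (IntermediateField.mem_fixingSubgroup_iff _ σ).1 hM b
      (IntermediateField.mem_adjoin_simple_self F b)
    exact h2
  have h3 : ((i ⟨σ, h⟩ : ℕ) : ZMod ℓ) = ((0 : ℕ) : ZMod ℓ) := by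
    apply uniq
    rw [← hi ⟨σ, h⟩, pow_zero, one_mul]
    exact h1
  show Multiplicative.ofAdd ((i ⟨σ, h⟩ : ℕ) : ZMod ℓ) = 1
  rw [h3, Nat.cast_zero]
  rfl

end BKS
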