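import Pool.Agent.Helper64.BKS.Stmts

/-!
# STEP: make the decomposition group smaller   [helper98]
-/

set_option autoImplicit false

open NumberField
open scoped Classical

namespace BKS

open BKA (Gal Zb Pl q Over Congr)

namespace H98

/-- a nontrivial finite abelian group has a nontrivial homomorphism to a group of prime order -/
theorem exists_hom_add (A : Type) [AddCommGroup A] [Finite A] [Nontrivial A] :
    ∃ ℓ : ℕ, ℓ.Prime ∧ ∃ f : A →+ ZMod ℓ, f ≠ 0 := by
  have hcard : Nat.card A ≠ 1 := by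
    have := Finite.one_lt_card (α := A)
    omega
  obtain ⟨ℓ, hp, hdvd⟩ : ∃ ℓ : ℕ, ℓ.Prime ∧ ℓ ∣ Nat.card A :=
    ⟨_, Nat.minFac_prime hcard, Nat.minFac_dvd _⟩
  refine ⟨ℓ, hp, ?_⟩
  have : Fact ℓ.Prime := ⟨hp⟩
  obtain ⟨x, hx⟩ := exists_prime_addOrderOf_dvd_card' (G := A) ℓ hdvd
  have hinj : ¬ Function.Injective (fun a : A => ℓ • a) := by
    intro hi
    have h0 : (fun a : A => ℓ • a) x = (fun a : A => ℓ • a) 0 := by
      show ℓ • x = ℓ • 0
      rw [← hx, addOrderOf_nsmul_eq_zero, smul_zero]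
    have h1 : x = 0 := hi h0
    rw [h1, addOrderOf_zero] at hx
    exact hp.one_lt.ne hx
  have hsur : ¬ Function.Surjective (fun a : A => ℓ • a) := fun h =>
    hinj (Finite.injective_iff_surjective.2 h)
  simp only [Function.Surjective, not_forall, not_exists] at hsur
  obtain ⟨y, hy⟩ := hsur
  let H : AddSubgroup A := (nsmulAddMonoidHom (α := A) ℓ).range
  have hH : ∀ a : A, ℓ • a ∈ H := fun a => ⟨a, rfl⟩
  obtain ⟨hmod⟩ : Nonempty (Module (ZMod ℓ) (A ⧸ H)) := ⟨QuotientAddGroup.zmodModule hH⟩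
  have hy' : (QuotientAddGroup.mk y : A ⧸ H) ≠ 0 := by
    intro h
    rw [QuotientAddGroup.eq_zero_iff] at h
    obtain ⟨a, ha⟩ := h
    exact hy a ha
  obtain ⟨f, hf⟩ := Module.Projective.exists_dual_ne_zero (ZMod ℓ) hy'
  refine ⟨f.toAddMonoidHom.comp (QuotientAddGroup.mk' H), fun h => hf ?_⟩
  exact DFunLike.congr_fun h y

/-- a nontrivial finite solvable group has a nontrivial homomorphism to a group of prime order -/
theorem exists_hom (G : Type) [Group G] [Finite G] [Nontrivial G] [Group.IsSolvable G] :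
    ∃ ℓ : ℕ, ℓ.Prime ∧ ∃ f : G →* Multiplicative (ZMod ℓ), f ≠ 1 := by
  have hc : commutator G < ⊤ := Group.IsSolvable.commutator_lt_top_of_nontrivial G
  have : Nontrivial (Abelianization G) := by
    by_contra hn
    rw [not_nontrivial_iff_subsingleton] at hn
    apply hc.ne
    rw [eq_top_iff]
    intro g _
    have h1 : (Abelianization.of g : Abelianization G) = 1 := Subsingleton.elim _ _
    exact (QuotientGroup.eq_one_iff g).1 h1
  have : Nontrivial (Additive (Abelianization G)) := inferInstanceAs (Nontrivial (Abelianization G))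
  have : Finite (Abelianization G) := inferInstanceAs (Finite (G ⧸ commutator G))
  have : Finite (Additive (Abelianization G)) := inferInstanceAs (Finite (Abelianization G))
  obtain ⟨ℓ, hp, f, hf⟩ := exists_hom_add (Additive (Abelianization G))
  refine ⟨ℓ, hp, { toFun := fun g => Multiplicative.ofAdd (f (Additive.ofMul
    (Abelianization.of g))), map_one' := ?_, map_mul' := ?_ }, fun h => hf ?_⟩
  · rw [map_one]
    exact congrArg Multiplicative.ofAdd (map_zero f)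
  · intro a b
    rw [map_mul]
    exact congrArg Multiplicative.ofAdd (map_add f (Additive.ofMul (Abelianization.of a))
      (Additive.ofMul (Abelianization.of b)))
  · apply AddMonoidHom.ext
    intro y
    obtain ⟨g, hg⟩ := QuotientGroup.mk_surjective (Additive.toMul y)
    have h1 := DFunLike.congr_fun h g
    have h3 : (Additive.ofMul (Abelianization.of g) : Additive (Abelianization G)) = y := hg
    rw [← h3]
    exact h1

/-- a prime lies over only one place -/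
theorem over_unique {F : Type} [Field F] [NumberField F] {v v' : Pl F} {𝔓 : Ideal (Zb F)}
    (h : Over v 𝔓) (h' : Over v' 𝔓) : v = v' := by
  apply IsDedekindDomain.HeightOneSpectrum.ext
  ext x
  let y : Zb F := ⟨algebraMap F (AlgebraicClosure F) (x : F),
    (RingOfIntegers.isIntegral_coe x).map ((algebraMap F (AlgebraicClosure F)).toIntAlgHom)⟩
  exact (h.2 x y rfl).trans (h'.2 x y rfl).symm

end H98

theorem st_STEP (hGL1 : ST_GL1) (hSLV : ST_SLV) (hCOR : ST_COR) : ST_STEP := by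
  intro F _ _ A N hN v hvA 𝔓 h𝔓 M _ hM hnot
  set D := (N ⊓ Dec 𝔓).map (QuotientGroup.mk' M) with hD
  have hfin : Finite (Gal F ⧸ M) := Subgroup.quotient_finite_of_isOpen M hM
  have hsolv : Group.IsSolvable ↥((Dec 𝔓).map (QuotientGroup.mk' M)) := hSLV F v 𝔓 h𝔓 M hM
  have hle : D ≤ (Dec 𝔓).map (QuotientGroup.mk' M) := Subgroup.map_mono inf_le_right
  have hsolvD : Group.IsSolvable ↥D :=
    Group.isSolvable_of_isSolvable_injective (f := Subgroup.inclusion hle)
      (Subgroup.inclusion_injective hle)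
  have hnt : Nontrivial ↥D := by
    rw [Subgroup.nontrivial_iff_ne_bot]
    intro h0
    apply hnot
    intro s hs
    have h1 : QuotientGroup.mk' M s ∈ D := ⟨s, hs, rfl⟩
    rw [h0, Subgroup.mem_bot] at h1
    exact (QuotientGroup.eq_one_iff s).1 h1
  obtain ⟨ℓ, hℓ, f, hf⟩ := H98.exists_hom ↥D
  let r : ↥(N ⊓ Dec 𝔓) →* ↥D :=
    ((QuotientGroup.mk' M).comp (N ⊓ Dec 𝔓).subtype).codRestrict D (fun s => ⟨s, s.2, rfl⟩)
  let φ : ↥(N ⊓ Dec 𝔓) →* Multiplicative (ZMod ℓ) := f.comp r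
  have hr : ∀ (s : Gal F) (h : s ∈ N ⊓ Dec 𝔓), s ∈ M → φ ⟨s, h⟩ = 1 := by
    intro s h hs
    have h1 : r ⟨s, h⟩ = 1 := Subtype.ext ((QuotientGroup.eq_one_iff s).2 hs)
    show f (r ⟨s, h⟩) = 1
    rw [h1, map_one]
  obtain ⟨Q, hQ, hcor⟩ := hCOR F A N hN
  obtain ⟨χ, hχc, hχφ, hχQ, hχC⟩ := hGL1 F N hN.isOpen ℓ hℓ v 𝔓 h𝔓 φ ⟨M, hM, hr⟩ Q (by
    intro 𝔔 h𝔔
    obtain ⟨u, hu, hou⟩ := hQ 𝔔 h𝔔
    refine ⟨⟨u, hou⟩, fun γ _ hTr => ?_⟩
    have h1 : Over v 𝔔 := hTr.over h𝔓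
    rw [H98.over_unique h1 hou] at hvA
    exact hvA hu)
  obtain ⟨N', hN'N, hgood, htriv, -, -⟩ := hcor ℓ {χ} hℓ (by
    intro χ' hχ'
    rw [Finset.mem_singleton] at hχ'
    subst hχ'
    exact ⟨hχc, hχQ, hχC⟩)
  refine ⟨N', hN'N, hgood, fun hle' => hf ?_⟩
  ext d
  obtain ⟨⟨s, hs, hsd⟩⟩ : Nonempty {s : Gal F // s ∈ N ⊓ Dec 𝔓 ∧ QuotientGroup.mk' M s = d.1} := by
    obtain ⟨s, hs, hsd⟩ := d.2
    exact ⟨⟨s, hs, hsd⟩⟩
  obtain ⟨t, ht, hts⟩ := hle' d.2
  have htN : t ∈ N ⊓ Dec 𝔓 := ⟨hN'N ht.1, ht.2⟩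
  have hd : r ⟨s, hs⟩ = d := Subtype.ext hsd
  have hdt : r ⟨t, htN⟩ = d := Subtype.ext hts
  have h1 : φ ⟨t, htN⟩ = 1 := by
    rw [← hχφ t (hN'N ht.1) htN]
    exact htriv χ (Finset.mem_singleton_self _) t (hN'N ht.1) ht.1
  have h2 : f d = 1 := by
    rw [← hdt]
    exact h1
  rw [h2]
  rfl

end BKS
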